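import Pool.Agent.H554R2.Gap.DetMain
import Pool.Agent.W902.PDS.Sep

/-!
# Randomised algorithms with a constant number of queries against programs with a stack

(after `Pool.Agent.H554R2.Gap.DetFinal`)
-/

set_option autoImplicit false

open Finset

namespace Pool.Agent.TH706.CQ

open Pool.Agent.H554R2.Sem Pool.Agent.H554R2.Coin Pool.Agent.H554R2.Cnf Pool.Agent.H554R2.Lin
open Pool.Agent.H554R2.Gap (exists_cnf_gap tests')
open Pool.Agent.W896.PD (PP)

/-- the number of violated clauses -/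
noncomputable def viol {n J : ℕ} (T : Fin J → Finset (Fin n × Bool)) (x : Pt n) : ℕ :=
  Nat.card {j // ¬ Sat (T j) x}

/-- the clauses and the random tests -/
def Easy {n J : ℕ} (T : Fin J → Finset (Fin n × Bool)) (D : ℕ) : Prop :=
  0 < J ∧ J ≤ D * n ∧ (∀ j, (T j).card ≤ D) ∧
    ∃ U : (Fin (2 * D) → Fin J) → BP (Fin n) Bool,
      (∀ ω, Fintype.card (U ω).State ≤ 9 * D ^ 2 ∧
        ∀ x, ∃ (l : List (Fin n)) (b : Bool), l.length ≤ 2 * D ^ 2 ∧ (U ω).Comp x l b) ∧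
      (∀ x, (∀ j, Sat (T j) x) → ∀ ω, ∃ l, (U ω).Comp x l true) ∧
      (∀ x, J ≤ D * viol T x → 3 * Nat.card {ω // ∃ l, (U ω).Comp x l true} ≤ J ^ (2 * D))

/-- one program with a stack accepts few solutions -/
def One {n J : ℕ} (T : Fin J → Finset (Fin n × Bool)) (D t : ℕ) : Prop :=
  0 < Nat.card {x : Pt n // ∀ j, Sat (T j) x} ∧
  ∀ P : PP (Fin n) Bool, Fintype.card P.State ≤ 2 ^ (n / D) →
    (∀ x, J ≤ D * viol T x → ¬ ∃ l, P.Comp x l true ∧ l.length ≤ t) →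
    2 ^ (n / D) * Nat.card {x // (∀ j, Sat (T j) x) ∧ ∃ l, P.Comp x l true ∧ l.length ≤ t} <
      Nat.card {x : Pt n // ∀ j, Sat (T j) x}

/-- families of programs with a stack fail on some solution -/
def Fam {n J : ℕ} (T : Fin J → Finset (Fin n × Bool)) (D t : ℕ) : Prop :=
  ∀ (Ω : Type) [Fintype Ω] (P : Ω → PP (Fin n) Bool), 0 < Fintype.card Ω →
    (∀ ω, Fintype.card (P ω).State ≤ 2 ^ (n / D)) →
    (∀ x, J ≤ D * viol T x → ∀ ω, ¬ ∃ l, (P ω).Comp x l true ∧ l.length ≤ t) →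
    ∃ x, (∀ j, Sat (T j) x) ∧
      2 ^ (n / D) * Nat.card {ω // ∃ l, (P ω).Comp x l true ∧ l.length ≤ t} < Fintype.card Ω

theorem easy_mono {n J D D' : ℕ} {T : Fin J → Finset (Fin n × Bool)} (hD0 : 0 < D) (hD : D ≤ D')
    (h : Easy T D) : Easy T D' := by
  obtain ⟨h1, h2, h3, -⟩ := h
  have h4 : ∀ j, (T j).card ≤ D' := fun j => (h3 j).trans hD
  exact ⟨h1, h2.trans (Nat.mul_le_mul_right _ hD), h4, tests' (by omega) h1 T h4⟩

theorem one_mono {n J D D' t t' : ℕ} {T : Fin J → Finset (Fin n × Bool)} (hD0 : 0 < D)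
    (hD : D ≤ D') (h : One T D t) (ht : t = t') : One T D' t' := by
  subst ht
  refine ⟨h.1, fun P hP hs => ?_⟩
  have h1 : 2 ^ (n / D') ≤ 2 ^ (n / D) :=
    Nat.pow_le_pow_right (by norm_num) (Nat.div_le_div_left hD hD0)
  exact lt_of_le_of_lt (Nat.mul_le_mul_right _ h1) (h.2 P (hP.trans h1)
    fun x hx => hs x (hx.trans (Nat.mul_le_mul_right _ hD)))

theorem family {n J D t : ℕ} {T : Fin J → Finset (Fin n × Bool)} (h : One T D t) : Fam T D t := by
  classical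
  intro Ω _ P hΩ hP hs
  by_contra hcon
  push Not at hcon
  obtain ⟨F, hF⟩ : ∃ F : Finset (Pt n), F = univ.filter (fun x => ∀ j, Sat (T j) x) := ⟨_, rfl⟩
  have hFc : Nat.card {x : Pt n // ∀ j, Sat (T j) x} = F.card := by
    rw [Nat.card_eq_fintype_card, Fintype.card_subtype, hF]
  have hF0 : 0 < F.card := by
    rw [← hFc]
    exact h.1
  have h1 : ∑ _x ∈ F, Fintype.card Ω ≤ ∑ x ∈ F, 2 ^ (n / D) *
      (univ.filter fun ω => ∃ l, (P ω).Comp x l true ∧ l.length ≤ t).card := by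
    apply Finset.sum_le_sum
    intro x hx
    rw [hF, Finset.mem_filter] at hx
    have h2 := hcon x hx.2
    rw [Nat.card_eq_fintype_card, Fintype.card_subtype] at h2
    exact h2
  have h2 : ∑ x ∈ F, (univ.filter fun ω => ∃ l, (P ω).Comp x l true ∧ l.length ≤ t).card =
      ∑ ω, (F.filter fun x => ∃ l, (P ω).Comp x l true ∧ l.length ≤ t).card :=
    Finset.sum_card_bipartiteAbove_eq_sum_card_bipartiteBelow
      (s := F) (t := (univ : Finset Ω)) (fun x ω => ∃ l, (P ω).Comp x l true ∧ l.length ≤ t)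
  rw [Finset.sum_const, smul_eq_mul, ← Finset.mul_sum, h2, Finset.mul_sum] at h1
  have h3 : ∑ ω, 2 ^ (n / D) * (F.filter fun x => ∃ l, (P ω).Comp x l true ∧
      l.length ≤ t).card < ∑ _ω : Ω, F.card := by
    apply Finset.sum_lt_sum_of_nonempty
    · rw [← Finset.card_pos, Finset.card_univ]
      exact hΩ
    · intro ω _
      have h4 := h.2 (P ω) (hP ω) (fun x hx => hs x hx ω)
      rw [hFc, Nat.card_eq_fintype_card, Fintype.card_subtype] at h4
      have h5 : (F.filter fun x => ∃ l, (P ω).Comp x l true ∧ l.length ≤ t) =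
          univ.filter (fun x => (∀ j, Sat (T j) x) ∧ ∃ l, (P ω).Comp x l true ∧
            l.length ≤ t) := by
        rw [hF, Finset.filter_filter]
      rw [h5]
      exact h4
  rw [Finset.sum_const, Finset.card_univ, smul_eq_mul, mul_comm] at h3
  omega

theorem fixed (k : ℕ) : ∃ D : ℕ, 0 < D ∧ ∀ n ≥ D,
    ∃ (J : ℕ) (T : Fin J → Finset (Fin n × Bool)), Easy T D ∧ ∀ t ≤ k * n, One T D t := by
  classical
  obtain ⟨Q, r, N, hQ, hr, hN, hmain⟩ := main_rect (2 * k + 1)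
  obtain ⟨D1, hD1, hcnf⟩ := exists_cnf_gap Q N hQ hN
  obtain ⟨D2, hD2, hcls⟩ := Pool.Agent.W896.PD.classes_le k r hr N hN
  obtain ⟨D3, hD3, hclk⟩ := Pool.Agent.W902.PDS.clocked_le k D2 hD2
  obtain ⟨D, hD⟩ : ∃ D : ℕ, D = D1 + 4 * D2 + D3 + 8 * N + 2 * Q + 2 * r + 1 := ⟨_, rfl⟩
  have hD0 : 0 < D := by omega
  refine ⟨D, hD0, ?_⟩
  intro n hn
  obtain ⟨J, T, hJ0, hJ, hT, hCc, hCR⟩ := hcnf n (by omega)
  have hT' : ∀ j, (T j).card ≤ D := fun j => (hT j).trans (by omega)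
  refine ⟨J, T, ⟨hJ0, hJ.trans (Nat.mul_le_mul_right _ (by omega)), hT', tests' hD0 hJ0 T hT'⟩, ?_⟩
  intro tt htt
  obtain ⟨Z, hZdef⟩ : ∃ Z : Finset (Pt n), Z = univ.filter (fun x : Pt n => ∀ j, Sat (T j) x) :=
    ⟨_, rfl⟩
  have hZ : Nat.card {x : Pt n // ∀ j, Sat (T j) x} = Z.card := by
    rw [Nat.card_eq_fintype_card, Fintype.card_subtype, hZdef]
  rw [← hZdef] at hCc
  refine ⟨?_, ?_⟩
  · rw [hZ]
    rcases Nat.eq_zero_or_pos Z.card with h0 | h0
    · rw [h0, mul_zero] at hCc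
      have := Nat.pow_pos (n := n) (show 0 < 2 by norm_num)
      omega
    · exact h0
  intro P hPs hPf
  by_contra hneg
  push Not at hneg
  set G : Finset (Pt n) := univ.filter (fun x => (∀ j, Sat (T j) x) ∧
    ∃ l, P.Comp x l true ∧ l.length ≤ tt) with hG
  have hGc : Nat.card {x // (∀ j, Sat (T j) x) ∧ ∃ l, P.Comp x l true ∧ l.length ≤ tt} =
      G.card := by
    rw [Nat.card_eq_fintype_card, Fintype.card_subtype]
  rw [hGc, hZ] at hneg
  -- blocks
  obtain ⟨t, ht⟩ : ∃ t : ℕ, t = k * n / r + 1 := ⟨_, rfl⟩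
  have ht1 : k * n < r * t := by
    rw [ht]; exact Nat.lt_mul_div_succ (k * n) hr
  have ht2 : r * (2 * t) ≤ (2 * k + 1) * n := by
    have h1 := Nat.mul_div_le (k * n) r
    have h2 : 2 * r ≤ n := by omega
    rw [ht]
    calc r * (2 * (k * n / r + 1)) = 2 * (r * (k * n / r)) + 2 * r := by ring
      _ ≤ 2 * (k * n) + n := by omega
      _ = (2 * k + 1) * n := by ring
  obtain ⟨B, hB1, hB2⟩ := Pool.Agent.W896.PD.blocks (Pool.Agent.W902.PDS.clk P tt) r t hr true G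
    (by
      intro x hx
      obtain ⟨_, l, hl, hl2⟩ := (Finset.mem_filter.1 hx).2
      exact ⟨l, (Pool.Agent.W902.PDS.clk_comp P tt x l true).2 ⟨hl, hl2⟩, by omega⟩)
  rw [Pool.Agent.W902.PDS.clk_card] at hB1
  -- the size
  have hS : Fintype.card P.State * (tt + 1) ≤ 2 ^ (n / D2) := by
    have h1 : 2 ^ (n / D) ≤ 2 ^ (n / (4 * D2)) :=
      Nat.pow_le_pow_right (by norm_num) (Nat.div_le_div_left (by omega) (by omega))
    exact (Nat.mul_le_mul_right _ (hPs.trans h1)).trans (hclk n (by omega) tt htt)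
  have hcl := hcls n (by omega) _ hS
  rw [← ht] at hcl
  obtain ⟨X, hX⟩ : ∃ X, X = r * (Fintype.card P.State * (tt + 1) * (Fintype.card P.State * (tt + 1) *
      ((r * t + 1) * (r * t + 1) ^ r))) ^ r := ⟨_, rfl⟩
  rw [← hX] at hcl hB1
  have hE2 : 2 ^ (n / D2) * X ≤ 2 ^ (n / (8 * N)) := by
    refine le_trans ?_ hcl
    calc 2 ^ (n / D2) * X ≤ (2 ^ (n / D2) * X) ^ N := by
          rcases Nat.eq_zero_or_pos (2 ^ (n / D2) * X) with h0 | h0
          · rw [h0]; exact Nat.zero_le _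
          · exact Nat.le_self_pow (by omega) _
      _ ≤ N * (2 ^ (n / D2) * X) ^ N := Nat.le_mul_of_pos_left _ hN
  have hDD : 2 ^ (n / D) ≤ 2 ^ (n / D2) :=
    Nat.pow_le_pow_right (by norm_num) (Nat.div_le_div_left (by omega) hD2)
  have hexp : (n / (4 * N) + 1) + n / (8 * N) ≤ n / N := by
    rw [Nat.le_div_iff_mul_le hN]
    have h1 : 4 * N * (n / (4 * N)) ≤ n := Nat.mul_div_le n (4 * N)
    have h2 : 8 * N * (n / (8 * N)) ≤ n := Nat.mul_div_le n (8 * N)
    have h3 : 8 * (((n / (4 * N) + 1) + n / (8 * N)) * N) =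
        2 * (4 * N * (n / (4 * N))) + 8 * N + 8 * N * (n / (8 * N)) := by ring
    omega
  have hKbig : 2 ^ n ≤ 2 ^ (n / N) * B.K.card := by
    calc 2 ^ n ≤ 2 ^ (n / (4 * N) + 1) * Z.card := hCc
      _ ≤ 2 ^ (n / (4 * N) + 1) * (2 ^ (n / D) * G.card) := Nat.mul_le_mul_left _ hneg
      _ ≤ 2 ^ (n / (4 * N) + 1) * (2 ^ (n / D2) * (X * B.K.card)) :=
          Nat.mul_le_mul_left _ (Nat.mul_le_mul hDD hB1)
      _ = 2 ^ (n / (4 * N) + 1) * ((2 ^ (n / D2) * X) * B.K.card) := by ring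
      _ ≤ 2 ^ (n / (4 * N) + 1) * (2 ^ (n / (8 * N)) * B.K.card) :=
          Nat.mul_le_mul_left _ (Nat.mul_le_mul_right _ hE2)
      _ = 2 ^ ((n / (4 * N) + 1) + n / (8 * N)) * B.K.card := by rw [pow_add]; ring
      _ ≤ 2 ^ (n / N) * B.K.card :=
          Nat.mul_le_mul_right _ (Nat.pow_le_pow_right (by norm_num) hexp)
  obtain ⟨a, b, g, ha, hb, hga, hgb, ⟨R⟩⟩ := hmain n (by omega) (2 * t) ht2 B hKbig
  set C : Finset (Pt n) := univ.filter (fun x : Pt n =>
        D1 * (univ.filter (fun j => ¬ Sat (T j) x)).card < J) with hCdef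
  have hKC : B.K ⊆ C := by
    intro x hx
    obtain ⟨l, hl⟩ := hB2 x hx
    rw [Pool.Agent.W902.PDS.clk_comp] at hl
    have h1 : D * viol T x < J := by
      by_contra hcon
      exact hPf x (by omega) ⟨l, hl⟩
    rw [hCdef, mem_filter]
    refine ⟨mem_univ _, lt_of_le_of_lt ?_ h1⟩
    have h2 : viol T x = (univ.filter (fun j => ¬ Sat (T j) x)).card := by
      unfold viol
      rw [Nat.card_eq_fintype_card, Fintype.card_subtype]
    rw [h2]
    exact Nat.mul_le_mul_right _ (by omega)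
  have hlog : ∀ e : ℕ, n ≤ Q * e → 100 * g ≤ e → n / (2 * Q) ≤ e - g := by
    intro e h1 h2
    have h3 : n / (2 * Q) ≤ e / 2 := by
      rw [Nat.div_le_iff_le_mul_add_pred (by omega)]
      have h4 : e < 2 * (e / 2) + 2 := by omega
      have h5 : Q * e ≤ Q * (2 * (e / 2) + 1) := Nat.mul_le_mul_left _ (by omega)
      have h6 : Q * (2 * (e / 2) + 1) = 2 * Q * (e / 2) + Q := by ring
      omega
    omega
  rcases norect_rect C B.K hKC hCR R with h | h
  · have h1 : 2 ^ (a - g) ≤ R.X.card := by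
      have h2 := R.nX
      have h3 : 2 ^ g * 2 ^ (a - g) ≤ 2 ^ g * R.X.card := by
        rw [← pow_add]
        have : g + (a - g) = a := by omega
        rw [this]; exact h2
      exact Nat.le_of_mul_le_mul_left h3 (by positivity)
    have h4 : 2 ^ (n / (2 * Q)) ≤ 2 ^ (a - g) := Nat.pow_le_pow_right (by norm_num) (hlog a ha hga)
    omega
  · have h1 : 2 ^ (b - g) ≤ R.Y.card := by
      have h2 := R.nY
      have h3 : 2 ^ g * 2 ^ (b - g) ≤ 2 ^ g * R.Y.card := by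
        rw [← pow_add]
        have : g + (b - g) = b := by omega
        rw [this]; exact h2
      exact Nat.le_of_mul_le_mul_left h3 (by positivity)
    have h4 : 2 ^ (n / (2 * Q)) ≤ 2 ^ (b - g) := Nat.pow_le_pow_right (by norm_num) (hlog b hb hgb)
    omega

open Filter in
/-- one sequence for all `k` -/
theorem uniform (h : ℕ → ℕ) (hh : Tendsto h atTop atTop) :
    ∃ (J : ℕ → ℕ) (T : ∀ n, Fin (J n) → Finset (Fin n × Bool)), ∀ k : ℕ, ∃ N, ∀ n ≥ N,
      Easy (T n) (h n) ∧ ∀ t ≤ k * n, One (T n) (h n) t := by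
  classical
  choose D hD0 hD using fun k => fixed k
  let j : ℕ → ℕ := fun n => Nat.findGreatest (fun k => D k ≤ n ∧ D k ≤ h n) n
  let S : ∀ n, Σ J : ℕ, (Fin J → Finset (Fin n × Bool)) := fun n =>
    if hn : D (j n) ≤ n then ⟨(hD (j n) n hn).choose, (hD (j n) n hn).choose_spec.choose⟩
    else ⟨0, fun _ => ∅⟩
  refine ⟨fun n => (S n).1, fun n => (S n).2, fun k => ?_⟩
  obtain ⟨N, hN⟩ := eventually_atTop.1 (tendsto_atTop.1 hh (D k))
  refine ⟨max N (max k (D k)), fun n hn => ?_⟩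
  have n1 : N ≤ n := (le_max_left _ _).trans hn
  have n2 : k ≤ n := ((le_max_left _ _).trans (le_max_right _ _)).trans hn
  have n3 : D k ≤ n := ((le_max_right _ _).trans (le_max_right _ _)).trans hn
  have hj1 : k ≤ j n := Nat.le_findGreatest n2 ⟨n3, hN n n1⟩
  have hj2 : D (j n) ≤ n ∧ D (j n) ≤ h n :=
    Nat.findGreatest_spec (P := fun k => D k ≤ n ∧ D k ≤ h n) n2 ⟨n3, hN n n1⟩
  have hSn : S n = ⟨(hD (j n) n hj2.1).choose, (hD (j n) n hj2.1).choose_spec.choose⟩ := by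
    show (if hn : D (j n) ≤ n then _ else _) = _
    rw [dif_pos hj2.1]
  obtain ⟨s1, s2⟩ := (hD (j n) n hj2.1).choose_spec.choose_spec
  show Easy (S n).2 (h n) ∧ ∀ t ≤ k * n, One (S n).2 (h n) t
  rw [hSn]
  exact ⟨easy_mono (hD0 _) hj2.2 s1, fun t ht =>
    one_mono (hD0 _) hj2.2 (s2 t (ht.trans (Nat.mul_le_mul_right _ hj1))) rfl⟩

end Pool.Agent.TH706.CQ
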