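import Pool.Agent.TH706.CQ.Main
import Pool.Agent.TH706.CD.Conv
import Pool.Agent.H554R2.Zpp.Main

/-!
# Zero-error algorithms with a constant number of queries against programs with a stack

(after `Pool.Agent.H554R2.Zpp.Main`)
-/

set_option autoImplicit false

open Finset

namespace Pool.Agent.TH706.CQ

open Pool.Agent.H554R2.Sem Pool.Agent.H554R2.Coin Pool.Agent.H554R2.Cnf Pool.Agent.H554R2.Lin
open Pool.Agent.H554R2 (Gap.tests')
open Pool.Agent.H554R2.Zpp (Yes No rows_cols pairProg pair_card pair_comp_false pair_comp_true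
  comp_uniq)
open Pool.Agent.W896.PD (PP Act)
open Pool.Agent.TH706.CD (OutIn outIn_unique mapPP mapPP_to)

section Subst

variable {ι κ β : Type}

/-- the variable queried instead of `j` -/
def gvr (k0 : κ) (φ : ι → κ ⊕ Bool) (j : ι) : κ := (φ j).elim id (fun _ => k0)

/-- the next node -/
def gnx {S : Type} (φ : ι → κ ⊕ Bool) (j : ι) (nxt : Bool → S) (b : Bool) : S :=
  (φ j).elim (fun _ => nxt b) nxt

/-- the input of the old program -/
def ginp (φ : ι → κ ⊕ Bool) (x : κ → Bool) (j : ι) : Bool := (φ j).elim x id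

theorem gnx_sub {S : Type} (k0 : κ) (φ : ι → κ ⊕ Bool) (j : ι) (nxt : Bool → S) (x : κ → Bool) :
    gnx φ j nxt (x (gvr k0 φ j)) = nxt (ginp φ x j) := by
  unfold gnx gvr ginp
  cases φ j with
  | inl v => rfl
  | inr c => rfl

/-- the new program: the queries of constants are replaced by queries of the variable `k0` -/
@[reducible] def rst (k0 : κ) (φ : ι → κ ⊕ Bool) (P : PP ι β) : PP κ β where
  State := P.State
  Sym := P.Sym
  start := P.start
  act := fun s => match P.act s with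
    | Act.query j nxt => Act.query (gvr k0 φ j) (gnx φ j nxt)
    | Act.push a q => Act.push a q
    | Act.pop nxt => Act.pop nxt
    | Act.out b => Act.out b

theorem rst_runs (k0 : κ) (φ : ι → κ ⊕ Bool) (P : PP ι β) (x : κ → Bool)
    {q : P.State} {σ : List P.Sym} {l : List ι} {b : β} (h : P.Runs (ginp φ x) q σ l b) :
    ∃ l' : List κ, l'.length = l.length ∧ (rst k0 φ P).Runs x q σ l' b := by
  induction h with
  | @out q σ b h =>
    exact ⟨[], rfl, PP.Runs.out (P := rst k0 φ P) (by simp only [h])⟩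
  | @query q σ j nxt l b h _ ih =>
    obtain ⟨l', h1, h2⟩ := ih
    refine ⟨gvr k0 φ j :: l', by simp [h1], ?_⟩
    refine PP.Runs.query (P := rst k0 φ P) (nxt := gnx φ j nxt) (by simp only [h]) ?_
    rw [gnx_sub k0 φ j nxt x]
    exact h2
  | @push q σ a q' l b h _ ih =>
    obtain ⟨l', h1, h2⟩ := ih
    exact ⟨l', h1, PP.Runs.push (P := rst k0 φ P) (a := a) (q' := q') (by simp only [h]) h2⟩
  | @pop q a σ nxt l b h _ ih =>
    obtain ⟨l', h1, h2⟩ := ih
    exact ⟨l', h1, PP.Runs.pop (P := rst k0 φ P) (a := a) (nxt := nxt) (by simp only [h]) h2⟩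

theorem rst_out (k0 : κ) (φ : ι → κ ⊕ Bool) (P : PP ι β) (x : κ → Bool) {τ : ℕ} {b : β}
    (h : OutIn P τ b (ginp φ x)) : OutIn (rst k0 φ P) τ b x := by
  obtain ⟨l, h1, h2⟩ := h
  obtain ⟨l', h3, h4⟩ := rst_runs k0 φ P x h1
  exact ⟨l', h4, by omega⟩

end Subst

theorem map_out {ι β γ : Type} (f : β → γ) (P : PP ι β) (x : ι → Bool) {τ : ℕ} {b : β}
    (h : OutIn P τ b x) : OutIn (mapPP f P) τ (f b) x := by
  obtain ⟨l, h1, h2⟩ := h
  exact ⟨l, mapPP_to f P x h1, h2⟩

/-- the clauses and the zero-error algorithm -/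
def ZeroErr {n J : ℕ} (T : Fin J → Finset (Fin n × Bool)) (D : ℕ) : Prop :=
  0 < J ∧ J ≤ D * n ∧ (∀ j, (T j).card ≤ D) ∧
    ∃ U : (Fin (2 * D) → Fin J) → BP (Fin n ⊕ Fin n) (Option Bool),
      (∀ ω, Fintype.card (U ω).State ≤ 18 * D ^ 2 ∧
        ∀ x, ∃ (l : List (Fin n ⊕ Fin n)) (b : Option Bool), l.length ≤ 4 * D ^ 2 ∧
          (U ω).Comp x l b) ∧
      (∀ x, Yes D T x → (∀ ω, ¬ ∃ l, (U ω).Comp x l (some false)) ∧
        3 * Nat.card {ω // ∃ l, (U ω).Comp x l none} ≤ J ^ (2 * D)) ∧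
      (∀ x, No D T x → (∀ ω, ¬ ∃ l, (U ω).Comp x l (some true)) ∧
        3 * Nat.card {ω // ∃ l, (U ω).Comp x l none} ≤ J ^ (2 * D))

/-- deterministic programs with a stack fail -/
def DetFails {n J : ℕ} (T : Fin J → Finset (Fin n × Bool)) (D t : ℕ) : Prop :=
  ∀ P : PP (Fin n ⊕ Fin n) Bool, (∀ x, ∃ b, OutIn P t b x) →
    (∀ x, Yes D T x → OutIn P t true x) → (∀ x, No D T x → OutIn P t false x) →
    2 ^ (n / D) < Fintype.card P.State

theorem zeroErr {n J D : ℕ} (hD0 : 0 < D) {T : Fin J → Finset (Fin n × Bool)} (hJ0 : 0 < J)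
    (hJ : J ≤ D * n) (hT' : ∀ j, (T j).card ≤ D) : ZeroErr T D := by
  classical
  refine ⟨hJ0, hJ, hT', ?_⟩
  obtain ⟨U, hU1, hU2, hU3⟩ := Pool.Agent.H554R2.Gap.tests' hD0 hJ0 T hT'
  have hrun : ∀ ω (x : Pt n), ∃ (l : List (Fin n)) (b : Bool), l.length ≤ 2 * D ^ 2 ∧
      (U ω).Comp x l b := fun ω x => (hU1 ω).2 x
  refine ⟨fun ω => pairProg (U ω), fun ω => ⟨?_, fun x => ?_⟩, ?_, ?_⟩
  · rw [pair_card]
    have := (hU1 ω).1
    omega
  · obtain ⟨l, b, h1, h2⟩ := hrun ω (fun i => x (Sum.inl i))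
    obtain ⟨l', b', h3, h4⟩ := hrun ω (fun i => x (Sum.inr i))
    rcases b with _ | _
    · exact ⟨_, _, by rw [List.length_map]; omega, pair_comp_false (U ω) x h2⟩
    · refine ⟨_, _, ?_, pair_comp_true (U ω) x h2 h4⟩
      rw [List.length_append, List.length_map, List.length_map]
      omega
  · rintro x ⟨hx1, hx2⟩
    constructor
    · rintro ω ⟨l, hl⟩
      obtain ⟨l1, h1⟩ := hU2 _ hx1 ω
      obtain ⟨l2, b2, _, h2⟩ := hrun ω (fun i => x (Sum.inr i))
      have h3 := (comp_uniq _ _ hl (pair_comp_true (U ω) x h1 h2)).2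
      cases b2 <;> simp at h3
    · refine le_trans (Nat.mul_le_mul_left 3 ?_) (hU3 _ hx2)
      refine Nat.card_le_card_of_injective
        (fun ω : {ω // ∃ l, (pairProg (U ω)).Comp x l none} =>
          (⟨ω.1, ?_⟩ : {ω // ∃ l, (U ω).Comp (fun i => x (Sum.inr i)) l true})) ?_
      · obtain ⟨ω, l, hl⟩ := ω
        obtain ⟨l1, h1⟩ := hU2 _ hx1 ω
        obtain ⟨l2, b2, _, h2⟩ := hrun ω (fun i => x (Sum.inr i))
        have h3 := (comp_uniq _ _ hl (pair_comp_true (U ω) x h1 h2)).2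
        cases b2
        · simp at h3
        · exact ⟨l2, h2⟩
      · rintro ⟨ω, _⟩ ⟨ω', _⟩ h
        simpa using h
  · rintro x ⟨hx1, hx2⟩
    constructor
    · rintro ω ⟨l, hl⟩
      obtain ⟨l2, h2⟩ := hU2 _ hx2 ω
      obtain ⟨l1, b1, _, h1⟩ := hrun ω (fun i => x (Sum.inl i))
      rcases b1 with _ | _
      · have h3 := (comp_uniq _ _ hl (pair_comp_false (U ω) x h1)).2
        simp at h3
      · have h3 := (comp_uniq _ _ hl (pair_comp_true (U ω) x h1 h2)).2
        simp at h3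
    · refine le_trans (Nat.mul_le_mul_left 3 ?_) (hU3 _ hx1)
      refine Nat.card_le_card_of_injective
        (fun ω : {ω // ∃ l, (pairProg (U ω)).Comp x l none} =>
          (⟨ω.1, ?_⟩ : {ω // ∃ l, (U ω).Comp (fun i => x (Sum.inl i)) l true})) ?_
      · obtain ⟨ω, l, hl⟩ := ω
        obtain ⟨l1, b1, _, h1⟩ := hrun ω (fun i => x (Sum.inl i))
        rcases b1 with _ | _
        · have h3 := (comp_uniq _ _ hl (pair_comp_false (U ω) x h1)).2
          simp at h3
        · exact ⟨l1, h1⟩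
      · rintro ⟨ω, _⟩ ⟨ω', _⟩ h
        simpa using h

/-- **Deterministic programs with a stack.** -/
theorem detFails {n J D t : ℕ} (hD0 : 0 < D) (hn : D ≤ n) {T : Fin J → Finset (Fin n × Bool)}
    (h : One T D t) : DetFails T D t := by
  classical
  intro P htot hyes hno
  by_contra hneg
  push Not at hneg
  have hn0 : 0 < n := by omega
  obtain ⟨i0, hi0⟩ : ∃ i0 : Fin n, i0 = ⟨0, hn0⟩ := ⟨_, rfl⟩
  obtain ⟨S, hS⟩ : ∃ S : Finset (Pt n), S = univ.filter (fun x : Pt n => ∀ j, Sat (T j) x) :=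
    ⟨_, rfl⟩
  have hSc : Nat.card {x : Pt n // ∀ j, Sat (T j) x} = S.card := by
    rw [Nat.card_eq_fintype_card, Fintype.card_subtype, hS]
  have hSne : S.Nonempty := by
    rw [← Finset.card_pos, ← hSc]
    exact h.1
  have hD12 : 2 ≤ 2 ^ (n / D) := by
    have : 1 ≤ n / D := (Nat.one_le_div_iff hD0).2 hn
    calc 2 = 2 ^ 1 := rfl
      _ ≤ _ := Nat.pow_le_pow_right (by norm_num) this
  -- the main step
  have key : ∀ (P' : PP (Fin n) Bool), Fintype.card P'.State ≤ 2 ^ (n / D) →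
      (∀ x, J ≤ D * viol T x → ¬ OutIn P' t true x) →
      S.card ≤ 2 * (S.filter (fun x => OutIn P' t true x)).card → False := by
    intro P' h1 h2 h3
    have h4 := h.2 P' h1 h2
    rw [hSc] at h4
    have h5 : Nat.card {x // (∀ j, Sat (T j) x) ∧ ∃ l, P'.Comp x l true ∧ l.length ≤ t} =
        (S.filter (fun x => OutIn P' t true x)).card := by
      rw [Nat.card_eq_fintype_card, Fintype.card_subtype, hS, Finset.filter_filter]
      rfl
    rw [h5] at h4
    have h6 : 2 * (S.filter (fun x => OutIn P' t true x)).card ≤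
        2 ^ (n / D) * (S.filter (fun x => OutIn P' t true x)).card :=
      Nat.mul_le_mul_right _ hD12
    omega
  rcases rows_cols S (fun u v => OutIn P t true (Sum.elim u v)) hSne with
    ⟨v, hv, hc⟩ | ⟨u, hu, hc⟩
  · -- the first half is free
    have hvS : ∀ j, Sat (T j) v := by
      rw [hS] at hv
      exact (mem_filter.1 hv).2
    obtain ⟨f, hf⟩ : ∃ f : Fin n ⊕ Fin n → Fin n ⊕ Bool,
      f = Sum.elim Sum.inl (fun i => Sum.inr (v i)) := ⟨_, rfl⟩
    have hinp : ∀ x : Pt n, ginp f x = Sum.elim x v := by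
      intro x; funext i; rcases i with i | i <;> simp [ginp, hf]
    refine key (rst i0 f P) hneg ?_ (hc.trans (Nat.mul_le_mul_left 2 (card_le_card ?_)))
    · intro x hx hl
      have h1 := hno (Sum.elim x v) ⟨hx, hvS⟩
      rw [← hinp] at h1
      have := outIn_unique hl (rst_out i0 f P x h1)
      simp at this
    · intro x hx
      rw [mem_filter] at hx ⊢
      refine ⟨hx.1, ?_⟩
      have h1 := hx.2
      rw [← hinp] at h1
      exact rst_out i0 f P x h1
  · -- the second half is free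
    have huS : ∀ j, Sat (T j) u := by
      rw [hS] at hu
      exact (mem_filter.1 hu).2
    obtain ⟨f, hf⟩ : ∃ f : Fin n ⊕ Fin n → Fin n ⊕ Bool,
      f = Sum.elim (fun i => Sum.inr (u i)) Sum.inl := ⟨_, rfl⟩
    have hinp : ∀ x : Pt n, ginp f x = Sum.elim u x := by
      intro x; funext i; rcases i with i | i <;> simp [ginp, hf]
    refine key (mapPP (fun b => !b) (rst i0 f P)) hneg ?_
      (hc.trans (Nat.mul_le_mul_left 2 (card_le_card ?_)))
    · intro x hx hl
      have h1 := hyes (Sum.elim u x) ⟨huS, hx⟩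
      rw [← hinp] at h1
      have := outIn_unique hl (map_out (fun b => !b) _ x (rst_out i0 f P x h1))
      simp at this
    · intro x hx
      rw [mem_filter] at hx ⊢
      refine ⟨hx.1, ?_⟩
      obtain ⟨b, hb⟩ := htot (Sum.elim u x)
      have hb2 : b = false := by
        cases b
        · rfl
        · exact absurd hb hx.2
      rw [hb2, ← hinp] at hb
      exact map_out (fun b => !b) _ x (rst_out i0 f P x hb)

theorem detFails_mono {n J D D' t : ℕ} {T : Fin J → Finset (Fin n × Bool)} (hD0 : 0 < D)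
    (hD : D ≤ D') (h : DetFails T D t) : DetFails T D' t := by
  intro P h1 h2 h3
  refine lt_of_le_of_lt (Nat.pow_le_pow_right (by norm_num) (Nat.div_le_div_left hD hD0))
    (h P h1 (fun x hx => h2 x ⟨hx.1, hx.2.trans (Nat.mul_le_mul_right _ hD)⟩)
      (fun x hx => h3 x ⟨hx.1.trans (Nat.mul_le_mul_right _ hD), hx.2⟩))

/-- fixed `k` -/
theorem zero_fixed (k : ℕ) : ∃ D : ℕ, 0 < D ∧ ∀ n ≥ D,
    ∃ (J : ℕ) (T : Fin J → Finset (Fin n × Bool)), ZeroErr T D ∧
      ∀ t ≤ k * n, DetFails T D t := by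
  obtain ⟨D, hD, h⟩ := fixed k
  refine ⟨D, hD, fun n hn => ?_⟩
  obtain ⟨J, T, h1, h2⟩ := h n hn
  exact ⟨J, T, zeroErr hD h1.1 h1.2.1 h1.2.2.1, fun t ht => detFails hD hn (h2 t ht)⟩

open Filter in
/-- one sequence for all `k` -/
theorem zero_uniform (h : ℕ → ℕ) (hh : Tendsto h atTop atTop) :
    ∃ (J : ℕ → ℕ) (T : ∀ n, Fin (J n) → Finset (Fin n × Bool)), ∀ k : ℕ, ∃ N, ∀ n ≥ N,
      ZeroErr (T n) (h n) ∧ ∀ t ≤ k * n, DetFails (T n) (h n) t := by
  obtain ⟨J, T, hT⟩ := uniform (fun n => min (h n) n) (by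
    rw [tendsto_atTop] at hh ⊢
    intro b
    filter_upwards [hh b, eventually_ge_atTop b] with n h1 h2
    exact le_min h1 h2)
  obtain ⟨N1, hN1⟩ := eventually_atTop.1 (tendsto_atTop.1 hh 1)
  refine ⟨J, T, fun k => ?_⟩
  obtain ⟨N, hN⟩ := hT k
  refine ⟨max N (max N1 1), fun n hn => ?_⟩
  have n1 : N ≤ n := (le_max_left _ _).trans hn
  have n2 : N1 ≤ n := ((le_max_left _ _).trans (le_max_right _ _)).trans hn
  have n3 : 1 ≤ n := ((le_max_right _ _).trans (le_max_right _ _)).trans hn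
  obtain ⟨g1, g2⟩ := hN n n1
  have hh1 : 1 ≤ h n := hN1 n n2
  have hm0 : 0 < min (h n) n := lt_min hh1 n3
  have hm1 : min (h n) n ≤ h n := min_le_left _ _
  refine ⟨zeroErr hh1 g1.1 (g1.2.1.trans (Nat.mul_le_mul_right _ hm1))
    (fun j => (g1.2.2.1 j).trans hm1), fun t ht => ?_⟩
  exact detFails_mono hm0 hm1 (detFails hm0 (min_le_right _ _) (g2 t ht))

end Pool.Agent.TH706.CQ
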